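import Mathlib
import Pool.Agent.Q85.Mom.Line

set_option autoImplicit false

/-!
# The moments on the lines `Re s = 1/2 + c/log T`

For every real `β ≥ 1` (the problem: `β = 2k`), uniformly in `β` and for all intervals in `[T, 8T]`
of length at least `C^β`, the `β`-th moment of zeta on the line `Re s = 1/2 + c/log T`,
`0 ≤ c ≤ (log T)/8`, is at most `e^{Cβ(1+c)/log T}` times and at least `e^{-βc/2 - Cβ(1+c)/log T}`
times the moment on the critical line (up to `O(log T)` at the ends of the interval).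
-/

open Filter Topology Set MeasureTheory

namespace Pool.Agent.Results.MP_6a632e_nt.NearbyLines

/-- the `β`-th moment over `[a, b]` on the line `Re s = 1/2 + x` -/
noncomputable def M (β x a b : ℝ) : ℝ :=
  ∫ t in a..b, ‖riemannZeta (1 / 2 + x + Complex.I * t)‖ ^ β

open Pool.Agent.Q85.Mom

lemma M_eq {β x a b : ℝ} (hβ : 0 < β) (hab : a ≤ b) : M β x a b = nrm β a b (zx x) ^ β := by
  rw [nrm_pow hβ hab]
  unfold M zx
  simp only [mul_comm Complex.I]

theorem result : ∃ C T₀ : ℝ, 0 < C ∧ ∀ (β c T a b : ℝ), 1 ≤ β → T₀ ≤ T → 0 ≤ c →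
    c ≤ Real.log T / 8 → T ≤ a → a + C ^ β ≤ b → b ≤ 8 * T →
    M β (c / Real.log T) a b ≤ Real.exp (C * β * (1 + c) / Real.log T) *
      M β 0 (a - Real.log T) (b + Real.log T) ∧
    M β 0 a b ≤ Real.exp (β * c / 2 + C * β * (1 + c) / Real.log T) *
      M β (c / Real.log T) (a - 2 * Real.log T) (b + 2 * Real.log T) := by
  obtain ⟨C₁, T₁, hC₁, hT₁, h1⟩ := line
  obtain ⟨C₂, T₂, hC₂, hT₂, h2⟩ := line0
  obtain ⟨C₃, T₃, hC₃, hT₃, h3⟩ := blk
  obtain ⟨T₄, hT₄⟩ : ∃ T₄ : ℝ, ∀ T : ℝ, T₄ ≤ T → 4 * Real.log T ^ 2 ≤ T := by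
    have h1 := (Real.isLittleO_pow_log_id_atTop (n := 2)).bound
      (show (0 : ℝ) < 1 / 4 by norm_num)
    have h2 := h1.and (eventually_gt_atTop 0)
    obtain ⟨T₂, hT₂⟩ := eventually_atTop.1 h2
    refine ⟨T₂, fun T hT => ?_⟩
    obtain ⟨h3, h5⟩ := hT₂ T hT
    rw [Real.norm_eq_abs, abs_of_nonneg (by positivity), id, Real.norm_eq_abs, abs_of_pos h5] at h3
    linarith
  refine ⟨C₁ + C₂ + C₃, max (max T₁ T₂) (max T₃ T₄), by linarith, ?_⟩
  intro β c T a b hβ hT hc hc8 ha hab hb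
  have hTT₁ : T₁ ≤ T := ((le_max_left _ _).trans (le_max_left _ _)).trans hT
  have hTT₂ : T₂ ≤ T := ((le_max_right _ _).trans (le_max_left _ _)).trans hT
  have hTT₃ : T₃ ≤ T := ((le_max_left _ _).trans (le_max_right _ _)).trans hT
  have hTT₄ := hT₄ T (((le_max_right _ _).trans (le_max_right _ _)).trans hT)
  have hT3 : 3 ≤ T := hT₁.trans hTT₁
  have hT0 : 0 < T := by linarith
  set C : ℝ := C₁ + C₂ + C₃ with hC
  set ℓ : ℝ := Real.log T with hℓ
  have hℓ1 : 1 ≤ ℓ := by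
    have h1 : Real.log (Real.exp 1) ≤ Real.log T := by
      apply Real.log_le_log (Real.exp_pos _)
      have := Real.exp_one_lt_d9
      linarith
    rwa [Real.log_exp] at h1
  have hℓ0 : 0 < ℓ := by linarith
  have hβ0 : 0 < β := by linarith
  set x : ℝ := c / ℓ with hx
  have hx0 : 0 ≤ x := by positivity
  have hx8 : x ≤ 1 / 8 := by
    rw [hx, div_le_iff₀ hℓ0]
    linarith
  have hC1 : 0 < C ^ β := by positivity
  have hab' : a ≤ b := by linarith
  have hCC₁ : C₁ ^ β ≤ C ^ β := Real.rpow_le_rpow (by linarith) (by linarith) hβ0.le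
  have hCC₃ : C₃ ^ β ≤ C ^ β := Real.rpow_le_rpow (by linarith) (by linarith) hβ0.le
  have hC₃1 : 1 ≤ C₃ ^ β := Real.one_le_rpow hC₃ hβ0.le
  have hxℓ : x * ℓ = c := by
    rw [hx]
    field_simp
  have hlogT : ∀ K : ℝ, 0 ≤ K → 1 + K * ℓ / T ≤ Real.exp (K / (4 * ℓ)) := by
    intro K hK
    have h4 : K * ℓ / T ≤ K / (4 * ℓ) := by
      rw [div_le_div_iff₀ hT0 (by positivity)]
      nlinarith
    have := Real.add_one_le_exp (K / (4 * ℓ))
    linarith
  have key : ∀ (K m n E : ℝ) , 0 ≤ m → 0 ≤ n → 0 ≤ K →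
      m ≤ (1 + K * ℓ / T) * Real.exp E * n →
      m ^ β ≤ Real.exp (β * (K / (4 * ℓ) + E)) * n ^ β := by
    intro K m n E hm hn hK h
    have h4 : m ≤ Real.exp (K / (4 * ℓ) + E) * n := by
      refine h.trans ?_
      rw [Real.exp_add]
      apply mul_le_mul_of_nonneg_right _ hn
      exact mul_le_mul_of_nonneg_right (hlogT K hK) (Real.exp_pos _).le
    have h5 := Real.rpow_le_rpow hm h4 hβ0.le
    rwa [Real.mul_rpow (Real.exp_pos _).le hn, ← Real.exp_mul, mul_comm _ β] at h5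
  constructor
  · have h4 := h1 β T a b ℓ x hβ hTT₁ ha (by linarith) hb (by linarith) le_rfl
      (by rw [abs_of_nonneg hx0]; linarith)
    rw [sub_self, max_eq_left hℓ0.le, abs_of_nonneg hx0] at h4
    rw [M_eq hβ0 hab', M_eq hβ0 (by linarith), zx_zero]
    refine (key 4 _ _ _ (nrm_nonneg hab' _) (nrm_nonneg (by linarith) _) (by norm_num) h4).trans ?_
    apply mul_le_mul_of_nonneg_right _ (Real.rpow_nonneg (nrm_nonneg (by linarith) _) _)
    rw [Real.exp_le_exp, mul_comm C β, mul_assoc β, mul_div_assoc β]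
    apply mul_le_mul_of_nonneg_left _ hβ0.le
    have e1 : 4 / (4 * ℓ) + (x * (ℓ + C₁) - ℓ * x) = (1 + C₁ * c) / ℓ := by
      rw [hx]
      field_simp
      ring
    rw [e1]
    apply div_le_div_of_nonneg_right _ hℓ0.le
    nlinarith
  · have hb1 := h3 β T a b 0 hβ hTT₃ ha (by linarith) hb le_rfl hℓ0.le
    have h4 := h2 β T (a - ℓ) (b + ℓ) x hβ hTT₂ (by nlinarith) (by linarith) (by linarith) hx0 hx8
      hb1.1
    have h5 : nrm β a b z ≤ nrm β (a - ℓ) (b + ℓ) z :=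
      nrm_interval hβ0 (by linarith) hab' (by linarith) z_cont
    have h6 := h5.trans h4
    have ea : a - ℓ - ℓ = a - 2 * ℓ := by ring
    have eb : b + ℓ + ℓ = b + 2 * ℓ := by ring
    rw [ea, eb] at h6
    rw [M_eq hβ0 hab', M_eq hβ0 (by linarith), zx_zero]
    refine (key C₂ _ _ _ (nrm_nonneg hab' _) (nrm_nonneg (by linarith) _) (by linarith) h6).trans ?_
    apply mul_le_mul_of_nonneg_right _ (Real.rpow_nonneg (nrm_nonneg (by linarith) _) _)
    rw [Real.exp_le_exp]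
    have e1 : β * (C₂ / (4 * ℓ) + x * (ℓ / 2 + C₂)) = β * c / 2 + β * ((C₂ / 4 + C₂ * c) / ℓ) := by
      rw [hx]
      field_simp
      ring
    rw [e1, mul_comm C β, mul_assoc β C, mul_div_assoc β (C * (1 + c))]
    have h7 : (C₂ / 4 + C₂ * c) / ℓ ≤ C * (1 + c) / ℓ := by
      apply div_le_div_of_nonneg_right _ hℓ0.le
      nlinarith
    have := mul_le_mul_of_nonneg_left h7 hβ0.le
    linarith

end Pool.Agent.Results.MP_6a632e_nt.NearbyLines
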