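import Mathlib
import Pool.Agent.Q85.Mom.Disc2

set_option autoImplicit false

/-!
# The moments of the local maxima of zeta over complex discs of radius `ρ/log T`

The `β`-th moment of `max_{|w| ≤ ρ/log T} T^{Re w/2} |ζ(1/2+it+w)|` is at most
`e (1+βρ) e^{βρ/2 + O(β(1+ρ)/log T)}` times the `β`-th moment of `|ζ(1/2+it)|`.
-/

open Filter Topology Set MeasureTheory

namespace Pool.Agent.Results.MP_6a632e_nt.ComplexNeighbourhoods

open Pool.Agent.Q85.Mom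

theorem result : ∃ C T₀ : ℝ, 0 < C ∧ ∀ (β T a b ρ : ℝ), 1 ≤ β → T₀ ≤ T →
    T + 1 ≤ a → a + C ^ β ≤ b → b + 1 ≤ 8 * T → 0 ≤ ρ → ρ + 2 ≤ Real.log T / 8 →
    ∫⁻ t in Ioc a b, ⨆ w ∈ Metric.closedBall (0 : ℂ) (ρ / Real.log T), ENNReal.ofReal
        ((T ^ (w.re / 2) * ‖riemannZeta (1 / 2 + (t : ℂ) * Complex.I + w)‖) ^ β) ≤
      ENNReal.ofReal (Real.exp 1 * (1 + β * ρ) *
        Real.exp (β * ρ / 2 + C * β * (1 + ρ) / Real.log T) *
        ∫ t in (a - 2 * Real.log T)..(b + 2 * Real.log T),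
          ‖riemannZeta (1 / 2 + t * Complex.I)‖ ^ β) := by
  obtain ⟨C, T₁, hC, hT₁, h1⟩ := AA_int
  obtain ⟨T₄, hT₄⟩ : ∃ T₄ : ℝ, ∀ T : ℝ, T₄ ≤ T → 4 * Real.log T ^ 2 ≤ T := by
    have h1 := (Real.isLittleO_pow_log_id_atTop (n := 2)).bound
      (show (0 : ℝ) < 1 / 4 by norm_num)
    have h2 := h1.and (eventually_gt_atTop 0)
    obtain ⟨T₂, hT₂⟩ := eventually_atTop.1 h2
    refine ⟨T₂, fun T hT => ?_⟩
    obtain ⟨h3, h5⟩ := hT₂ T hT
    rw [Real.norm_eq_abs, abs_of_nonneg (by positivity), id, Real.norm_eq_abs, abs_of_pos h5] at h3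
    linarith
  refine ⟨3 * C, max T₁ T₄, by linarith, ?_⟩
  intro β T a b ρ hβ hT ha hab hb hρ hρ8
  have hTT₁ : T₁ ≤ T := (le_max_left _ _).trans hT
  have hTT₄ := hT₄ T ((le_max_right _ _).trans hT)
  have hT3 : 3 ≤ T := hT₁.trans hTT₁
  have hT0 : 0 < T := by linarith
  set ℓ : ℝ := Real.log T with hℓ
  have hℓ1 : 1 ≤ ℓ := by
    have h1 : Real.log (Real.exp 1) ≤ Real.log T := by
      apply Real.log_le_log (Real.exp_pos _)
      have := Real.exp_one_lt_d9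
      linarith
    rwa [Real.log_exp] at h1
  have hℓ0 : 0 < ℓ := by linarith
  have hβ0 : 0 < β := by linarith
  have hCC : C ^ β ≤ (3 * C) ^ β := Real.rpow_le_rpow (by linarith) (by linarith) hβ0.le
  have hC1 : 0 < C ^ β := by positivity
  have hab' : a ≤ b := by linarith
  set σ : ℝ := 2 / β with hσ
  have hσ0 : 0 < σ := by positivity
  have hσ2 : σ ≤ 2 := by
    rw [hσ, div_le_iff₀ hβ0]
    linarith
  set r : ℝ := (ρ + σ) / ℓ with hr
  have hr0 : 0 < r := by positivity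
  have hr8 : r ≤ 1 / 8 := by
    rw [hr, div_le_iff₀ hℓ0]
    linarith
  have hρr : ρ / ℓ < r := by
    rw [hr]
    apply div_lt_div_of_pos_right _ hℓ0
    linarith
  have hcoef : (r + ρ / ℓ) / (r - ρ / ℓ) = 1 + β * ρ := by
    have e1 : r - ρ / ℓ = σ / ℓ := by rw [hr]; ring
    have e2 : r + ρ / ℓ = (2 * ρ + σ) / ℓ := by rw [hr]; ring
    rw [e1, e2, hσ]
    field_simp
    ring
  have hpt : ∀ t : ℝ, (⨆ w ∈ Metric.closedBall (0 : ℂ) (ρ / ℓ), ENNReal.ofReal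
        ((T ^ (w.re / 2) * ‖riemannZeta (1 / 2 + (t : ℂ) * Complex.I + w)‖) ^ β)) ≤
      ENNReal.ofReal ((1 + β * ρ) * AA (ℓ / 2) r β t) := by
    intro t
    refine iSup₂_le fun w hw => ENNReal.ofReal_le_ofReal ?_
    rw [mem_closedBall_zero_iff] at hw
    have h2 := peak (t := t) (lam := ℓ / 2) hr8 hβ hw hρr
    rw [hcoef] at h2
    have e : T ^ (w.re / 2) = Real.exp (ℓ / 2 * w.re) := by
      rw [Real.rpow_def_of_pos hT0]
      congr 1
      ring
    rw [e]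
    exact h2
  have hAc : Continuous (AA (ℓ / 2) r β) := AA_cont hβ0.le hr0.le hr8
  have hAi : IntegrableOn (fun t => (1 + β * ρ) * AA (ℓ / 2) r β t) (Ioc a b) :=
    (((hAc.const_mul _).integrableOn_Icc).mono_set Ioc_subset_Icc_self)
  have h2 : ∫⁻ t in Ioc a b, ENNReal.ofReal ((1 + β * ρ) * AA (ℓ / 2) r β t) =
      ENNReal.ofReal (∫ t in a..b, (1 + β * ρ) * AA (ℓ / 2) r β t) := by
    rw [intervalIntegral.integral_of_le hab', ofReal_integral_eq_lintegral_ofReal hAi]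
    exact Filter.Eventually.of_forall fun t => mul_nonneg (by positivity) (AA_nonneg _ _ _ _)
  refine (lintegral_mono fun t => hpt t).trans ?_
  rw [h2]
  apply ENNReal.ofReal_le_ofReal
  rw [intervalIntegral.integral_const_mul]
  have h4 := h1 β T a b r hβ hTT₁ ha (by linarith) hb hr0.le hr8
  refine (mul_le_mul_of_nonneg_left h4 (by positivity)).trans ?_
  set N := nrm β (a - 2 * ℓ) (b + 2 * ℓ) z with hN
  have hN0 : 0 ≤ N := nrm_nonneg (by linarith) _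
  have h7 : N ^ β = ∫ t in (a - 2 * ℓ)..(b + 2 * ℓ), ‖riemannZeta (1 / 2 + t * Complex.I)‖ ^ β := by
    rw [hN, nrm_pow hβ0 (by linarith)]
    rfl
  rw [← h7]
  have h5 : (1 + 4 * ℓ / T) * Real.exp (r * (ℓ / 2 + C)) ≤
      Real.exp (1 / ℓ + r * (ℓ / 2 + C)) := by
    have h6 : 1 + 4 * ℓ / T ≤ Real.exp (1 / ℓ) := by
      have h4 : 4 * ℓ / T ≤ 1 / ℓ := by
        rw [div_le_div_iff₀ hT0 hℓ0]
        nlinarith
      have := Real.add_one_le_exp (1 / ℓ)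
      linarith
    rw [Real.exp_add]
    exact mul_le_mul_of_nonneg_right h6 (Real.exp_pos _).le
  have h6 : ((1 + 4 * ℓ / T) * Real.exp (r * (ℓ / 2 + C)) * N) ^ β ≤
      Real.exp (1 / ℓ + r * (ℓ / 2 + C)) ^ β * N ^ β := by
    rw [← Real.mul_rpow (Real.exp_pos _).le hN0]
    apply Real.rpow_le_rpow (by positivity) _ hβ0.le
    exact mul_le_mul_of_nonneg_right h5 hN0
  have h8 : Real.exp (1 / ℓ + r * (ℓ / 2 + C)) ^ β ≤
      Real.exp 1 * Real.exp (β * ρ / 2 + 3 * C * β * (1 + ρ) / ℓ) := by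
    rw [← Real.exp_mul, ← Real.exp_add, Real.exp_le_exp]
    have e1 : (1 / ℓ + r * (ℓ / 2 + C)) * β = 1 + β * ρ / 2 + β * ((1 + C * (ρ + σ)) / ℓ) := by
      rw [hr, hσ]
      field_simp
      ring
    have e2 : 3 * C * β * (1 + ρ) / ℓ = β * (3 * C * (1 + ρ) / ℓ) := by ring
    rw [e1, e2]
    have : (1 + C * (ρ + σ)) / ℓ ≤ 3 * C * (1 + ρ) / ℓ := by
      apply div_le_div_of_nonneg_right _ hℓ0.le
      nlinarith
    have := mul_le_mul_of_nonneg_left this hβ0.le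
    linarith
  calc (1 + β * ρ) * ((1 + 4 * ℓ / T) * Real.exp (r * (ℓ / 2 + C)) * N) ^ β
      ≤ (1 + β * ρ) * ((Real.exp 1 * Real.exp (β * ρ / 2 + 3 * C * β * (1 + ρ) / ℓ)) * N ^ β) := by
        apply mul_le_mul_of_nonneg_left _ (by positivity)
        exact h6.trans (mul_le_mul_of_nonneg_right h8 (by positivity))
    _ = _ := by ring

end Pool.Agent.Results.MP_6a632e_nt.ComplexNeighbourhoods
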