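import Mathlib
import Pool.Agent.Q288.MZ.Lead

set_option autoImplicit false

/-!
MP_6a632e_nt. The Keating-Snaith conjecture for the moments of `ζ` and the points at which `ζ(1/2 + it)` lies on few
lines through the origin.
-/

open Filter Topology Set MeasureTheory

namespace Pool.Agent.Results.MP_6a632e_nt.FewLines

/-- The value `ζ(1/2 + it)`. -/
noncomputable def z (t : ℝ) : ℂ := riemannZeta (1 / 2 + t * Complex.I)

/-- The heights `t > 100` at which `ζ(1/2 + it)` is a nonzero point of one of the `N` lines `u e^{πij/N} ℝ`. -/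
def Pts (u : ℂ) (N : ℕ) : Set ℝ :=
  {t | 100 < t ∧ ∃ (j : ℕ) (r : ℝ), r ≠ 0 ∧ z t = r * (u * Complex.exp (Real.pi * Complex.I * j / N))}

/-- The moment `M_k(T)`. -/
noncomputable def M (k : ℕ) (T : ℝ) : ℝ := 1 / T * ∫ t in (0 : ℝ)..T, ‖z t‖ ^ (2 * k)

/-- The discrete moment: `(2π/N)` times the sum of `|ζ(1/2 + it)|^{2k}` over the heights `t ≤ T` in `Pts u N`,
divided by `T`. -/
noncomputable def D (k N : ℕ) (u : ℂ) (T : ℝ) : ℝ :=
  1 / T * (2 * Real.pi / N * ∑ᶠ t ∈ Pts u N ∩ Iic T, ‖z t‖ ^ (2 * k))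

/-- The factor `X(s) = χ(1 - s)` of the functional equation `ζ(1 - s) = X(s) ζ(s)`. -/
noncomputable def X (s : ℂ) : ℂ :=
  2 * (2 * (Real.pi : ℂ)) ^ (-s) * Complex.Gamma s * Complex.cos (Real.pi * s / 2)

/-- The logarithmic derivative of `X` at `1/2 + it` (a real number, close to `log (t/2π)`). -/
noncomputable def lam (t : ℝ) : ℝ := (logDeriv X (1 / 2 + t * Complex.I)).re

/-- The weighted sum of `|ζ(1/2 + it)|^{2k}` over the heights `t ≤ T` in `Pts u N`. -/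
noncomputable def S (k N : ℕ) (u : ℂ) (T : ℝ) : ℝ :=
  2 * Real.pi / N * ∑ᶠ t ∈ Pts u N ∩ Iic T, ‖z t‖ ^ (2 * k) / lam t

/-- The arithmetic factor `a_k`. -/
noncomputable def a (k : ℕ) : ℝ :=
  ∏' p : Nat.Primes, ((1 - 1 / (p : ℝ)) ^ (k ^ 2) *
    ∑' m : ℕ, ((m + k - 1).choose m : ℝ) ^ 2 * (1 / (p : ℝ)) ^ m)

/-- The random-matrix factor `f_k`. -/
noncomputable def f (k : ℕ) : ℝ := ∏ j ∈ Finset.range k, (j.factorial : ℝ) / ((j + k).factorial : ℝ)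

theorem result :
    -- the sums are finite
    (∀ (u : ℂ) (N : ℕ) (T : ℝ), u ≠ 0 → 1 ≤ N → (Pts u N ∩ Iic T).Finite) ∧
    -- at least `k - 1` lines: the same constants
    (∀ (u : ℂ) (k N : ℕ) (c : ℝ), u ≠ 0 → 1 ≤ k → 1 ≤ N → k ≤ N + 1 →
      (Tendsto (fun T => M k T / Real.log T ^ (k ^ 2)) atTop (𝓝 c) ↔
        Tendsto (fun T => D k N u T / Real.log T ^ (k ^ 2 + 1)) atTop (𝓝 c))) ∧
    -- the conjecture of Keating and Snaith
    (∀ u : ℕ → ℂ, (∀ k, u k ≠ 0) →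
      ((∀ k : ℕ, 3 ≤ k → Tendsto (fun T => M k T / (a k * f k * Real.log T ^ (k ^ 2))) atTop (𝓝 1)) ↔
        ∀ k : ℕ, 3 ≤ k →
          Tendsto (fun T => D k (k - 1) (u k) T / (a k * f k * Real.log T ^ (k ^ 2 + 1))) atTop (𝓝 1))) ∧
    -- at least `k + 1` lines: every normalisation
    (∀ (u : ℂ) (k N : ℕ) (g : ℝ → ℝ) (c : ℝ), u ≠ 0 → 1 ≤ k → k + 1 ≤ N →
      Tendsto g atTop atTop → (∀ R : ℝ, Tendsto (fun T => g (T + R) / g T) atTop (𝓝 1)) →
      (∃ K : ℝ, ∀ᶠ T : ℝ in atTop, g (3 * T / 2) ≤ K * g T) →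
      (Tendsto (fun T => (∫ t in (0 : ℝ)..T, ‖z t‖ ^ (2 * k)) / g T) atTop (𝓝 c) ↔
        Tendsto (fun T => S k N u T / g T) atTop (𝓝 c))) ∧
    -- the weights
    (∀ t : ℝ, 100 < t → |lam t - Real.log (t / (2 * Real.pi))| ≤ 14 / t) := by
  refine ⟨fun u N T hu hN => Pool.Agent.Q288.MZ.pts_finite hu hN T,
    fun u k N c hu hk hN hkN => Pool.Agent.Q288.MZ.few_lines hu hk hN hkN c, fun u hu => ?_,
    fun u k N g c hu hk hN g1 g2 g3 => Pool.Agent.Q288.MZ.many_lines hu hk hN g1 g2 g3,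
    fun t ht => (Pool.Agent.W188.QS.a_line.1 t (by linarith)).2.1⟩
  refine forall_congr' fun k => imp_congr_right fun hk => ?_
  exact Pool.Agent.Q288.MZ.const_iff (F := M k) (G := D k (k - 1) (u k)) (a k * f k)
    (L₁ := fun T => Real.log T ^ (k ^ 2)) (L₂ := fun T => Real.log T ^ (k ^ 2 + 1))
    (Pool.Agent.Q288.MZ.few_lines (hu k) (by omega) (by omega) (by omega) _)

end Pool.Agent.Results.MP_6a632e_nt.FewLines
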